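import Pool.Agent.Q160.GL.Law

/-!
# Goldfeld's conjecture in thin sets of twists: prime twists, twists with a given number of prime factors

`E : y² = x³ + a x + b` is an elliptic curve over `ℚ` and `E_d` its twist by the squarefree integer `d`. For
`|d| > 1` let `p(d)` be the largest prime factor of `d`. Let `I` be ANY function which assigns to every natural
number `k` a set `I(k)` of consecutive natural numbers (an interval, possibly empty or unbounded), and let
`𝒟` be the set of the `d` with `p(d) ∈ I(|d| / p(d))`. For instance: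

* `±` the primes, or the products of exactly `k` primes, or the `d` whose number of prime factors lies in an
  arbitrary set `𝒦` of natural numbers;
* the `d` such that `|d| / p(d)` lies in an arbitrary set of natural numbers;
* the `d` with `p(d) > |d|^u`, or with `p(d) ≤ |d|^u`.

Without any hypothesis, for all `E` with `j`-invariant `0` or `1728` and for all quadratic twists of `X₀(11)`
and `X₀(14)`, and for every elliptic curve over `ℚ` whose quadratic twists are modular: for every `B` there
are `C`, `K` such that for ALL these sets `𝒟`, for both parities `e`, and for all `X ≥ 3` and `R ≥ K log log X`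

`#{d ∈ 𝒟 : |d| ≤ X, the analytic rank of E_d is ≤ R and ≡ e mod 2} = #{d ∈ 𝒟 : |d| ≤ X} / 2 + O(X / (log X)^B)`,

the constants not depending on `𝒟`. So for the twists by `±` primes half of the curves have even and half have
odd analytic rank, at most `K log log X` with `O(X / (log X)^B)` exceptions.

Method: the sign of the functional equation of `E_d` is a function of the prime-to-`Q` part `m` of `|d|` like
`(-N | m)`, with finitely many `N > 0`; the sum of `(-N | m)` over the set is a sum over the cofactors of
sums over the primes of an interval (theorem of Siegel and Walfisz), up to the few numbers without large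
prime factor. The large analytic ranks are rare by the exponential moment of the starting library
(`Pool.Agent.Y19.QT`).
-/

set_option autoImplicit false

open Finset

namespace Pool.Agent.Results.MP_03e5d0_nt.LargestPrimeFactor

open Pool.Agent.Y19.QT (Fam TwistsModular IsLFun)

/-- the largest prime factor of `n ≥ 2` -/
def largestPrime (n : ℕ) : ℕ := n.primeFactors.sup id

/-- the number of the prime factors of `n` -/
def numPrimes (n : ℕ) : ℕ := n.primeFactors.card

open Classical in
/-- the squarefree integers `d` with `1 < |d| ≤ X` and the property `P |d|` -/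
noncomputable def twists (P : ℕ → Prop) (X : ℕ) : Finset ℤ :=
  (Icc (-(X : ℤ)) X).filter fun d => Squarefree d ∧ 1 < |d| ∧ P d.natAbs

open Classical in
/-- the number of the `d` in `twists P X` for which `F d` has at `s = 1` a zero of order `r`, where `r ≤ R`
and `r ≡ e mod 2` -/
noncomputable def count (F : ℤ → ℂ → ℂ) (P : ℕ → Prop) (e : ℕ) (R : ℝ) (X : ℕ) : ℕ :=
  ((twists P X).filter fun d =>
    ∃ r : ℕ, r % 2 = e ∧ (r : ℝ) ≤ R ∧ analyticOrderAt (F d) 1 = (r : ℕ∞)).card

/-- the largest prime factor lies in the interval which belongs to the cofactor -/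
def InInterval (I : ℕ → Set ℕ) (n : ℕ) : Prop := largestPrime n ∈ I (n / largestPrime n)

/-- the law: half of the twists have even, half have odd analytic rank `≤ R` -/
def Law (F : ℤ → ℂ → ℂ) (C K : ℝ) (B : ℕ) (P : ℕ → Prop) : Prop :=
  ∀ (X : ℕ) (R : ℝ), 3 ≤ X → K * Real.log (Real.log X) ≤ R → ∀ e < 2,
    |(count F P e R X : ℝ) - ((twists P X).card : ℝ) / 2| ≤ C * (X / Real.log X ^ B)

theorem natAbs_lt {d : ℤ} : 1 < |d| ↔ 1 < d.natAbs := by
  rw [Int.abs_eq_natAbs]
  exact_mod_cast Iff.rfl

open Classical in
theorem twists_eq (P : ℕ → Prop) (I : ℕ → Set ℕ) (X : ℕ)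
    (h : ∀ n, Squarefree n → (Q160.GL.InS I n ↔ 1 < n ∧ P n)) :
    twists P X = (Y19.QT.sqf X).filter (fun d => Q160.GL.InS I d.natAbs) := by
  ext d
  unfold twists
  rw [Finset.mem_filter, Finset.mem_filter, Y19.QT.mem_sqf, Finset.mem_Icc, ← abs_le, natAbs_lt]
  constructor
  · rintro ⟨h1, h2, h3⟩
    exact ⟨⟨h1, h2⟩, (h _ (Int.squarefree_natAbs.2 h2)).2 h3⟩
  · rintro ⟨⟨h1, h2⟩, h3⟩
    exact ⟨h1, h2, (h _ (Int.squarefree_natAbs.2 h2)).1 h3⟩

/-- **Theorem.** -/
theorem result (a b : ℤ) (hE : Fam a b ∨ (4 * a ^ 3 + 27 * b ^ 2 ≠ 0 ∧ TwistsModular a b)) :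
    (∀ d : ℤ, Squarefree d → ∃! F : ℂ → ℂ, IsLFun (a * d ^ 2) (b * d ^ 3) F) ∧
    ∀ F : ℤ → ℂ → ℂ, (∀ d : ℤ, Squarefree d → IsLFun (a * d ^ 2) (b * d ^ 3) (F d)) →
      ∀ B : ℕ, ∃ C K : ℝ,
        (∀ I : ℕ → Set ℕ, (∀ k, (I k).OrdConnected) → Law F C K B (InInterval I)) ∧
        (∀ S : Set ℕ, Law F C K B (fun n => n / largestPrime n ∈ S)) ∧
        ∀ 𝒦 : Set ℕ, Law F C K B (fun n => numPrimes n ∈ 𝒦) := by
  classical
  have hab : 4 * a ^ 3 + 27 * b ^ 2 ≠ 0 := by
    rcases hE with h | h
    · exact h.disc
    · exact h.1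
  have hT : Y19.QT.HasTwists a b := by
    rcases hE with h | h
    · exact h.data.1
    · exact Y19.QT.hasTwists_of a b h.1 h.2
  have hL : ∀ d : ℤ, Squarefree d → ∃ F : ℂ → ℂ, IsLFun (a * d ^ 2) (b * d ^ 3) F := by
    rcases hE with h | h
    · exact h.data.2
    · exact Y19.QT.exists_LFun a b h.1 h.2
  have hS : Pool.Agent.Y763.QTPAR.HasSgn a b := by
    rcases hE with h | h
    · exact Pool.Agent.Y763.QTPAR.Fam_sgn h
    · exact Pool.Agent.Y763.QTPAR.sgn_of_twistsModular h.1 h.2
  refine ⟨fun d hd => ?_, fun F hF B => ?_⟩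
  · obtain ⟨F, hF⟩ := hL d hd
    exact ⟨F, hF, fun G hG => Y19.QT.isLFun_unique hG hF⟩
  obtain ⟨C, K, h⟩ := Q160.GL.law_of hab hT hS F hF B
  have main : ∀ (P : ℕ → Prop) (I : ℕ → Set ℕ), (∀ k, (I k).OrdConnected) →
      (∀ n, Squarefree n → (Q160.GL.InS I n ↔ 1 < n ∧ P n)) → Law F C K B P := by
    intro P I hI hP X R hX hR e he
    have h1 := h X R hX hR I hI e he
    unfold count
    rw [twists_eq P I X hP]
    exact h1
  have cof : ∀ n : ℕ, 1 < n → n / largestPrime n ≠ 0 := by
    intro n hn
    have h1 := Q160.GL.lp_mem hn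
    obtain ⟨h2, h3, -⟩ := Nat.mem_primeFactors.1 h1
    exact (Nat.div_pos (Nat.le_of_dvd (by omega) h3) h2.pos).ne'
  have small : ∀ n : ℕ, ¬ 1 < n → n / largestPrime n = 0 := by
    intro n hn
    have h0 : n = 0 ∨ n = 1 := by omega
    have h1 : largestPrime n = 0 := by
      rcases h0 with rfl | rfl
      · exact Q160.GL.lp_zero
      · exact Q160.GL.lp_one
    rw [h1, Nat.div_zero]
  refine ⟨C, K, fun I hI => ?_, fun S => ?_, fun 𝒦 => ?_⟩
  · refine main _ (fun k => if k = 0 then ∅ else I k) (fun k => ?_) fun n _ => ?_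
    · split_ifs
      · exact Set.ordConnected_empty
      · exact hI k
    · change largestPrime n ∈ (if n / largestPrime n = 0 then (∅ : Set ℕ)
        else I (n / largestPrime n)) ↔ 1 < n ∧ largestPrime n ∈ I (n / largestPrime n)
      by_cases hn : 1 < n
      · rw [if_neg (cof n hn)]
        exact ⟨fun h => ⟨hn, h⟩, fun h => h.2⟩
      · rw [if_pos (small n hn)]
        exact ⟨fun h => absurd h (Set.notMem_empty _), fun h => absurd h.1 hn⟩
  · refine main _ (fun k => if k ≠ 0 ∧ k ∈ S then Set.univ else ∅) (fun k => ?_) fun n _ => ?_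
    · split_ifs
      · exact Set.ordConnected_univ
      · exact Set.ordConnected_empty
    · change largestPrime n ∈ (if n / largestPrime n ≠ 0 ∧ n / largestPrime n ∈ S then
        (Set.univ : Set ℕ) else ∅) ↔ 1 < n ∧ n / largestPrime n ∈ S
      by_cases hn : 1 < n
      · by_cases hS' : n / largestPrime n ∈ S
        · rw [if_pos (And.intro (cof n hn) hS')]
          exact ⟨fun _ => ⟨hn, hS'⟩, fun _ => Set.mem_univ _⟩
        · have hneg : ¬ (n / largestPrime n ≠ 0 ∧ n / largestPrime n ∈ S) := fun h => hS' h.2
          rw [if_neg hneg]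
          exact ⟨fun h => absurd h (Set.notMem_empty _), fun h => absurd h.2 hS'⟩
      · have hneg : ¬ (n / largestPrime n ≠ 0 ∧ n / largestPrime n ∈ S) :=
          fun h => h.1 (small n hn)
        rw [if_neg hneg]
        exact ⟨fun h => absurd h (Set.notMem_empty _), fun h => absurd h.1 hn⟩
  · refine main _ (fun k => if k ≠ 0 ∧ k.primeFactors.card + 1 ∈ 𝒦 then Set.univ else ∅)
      (fun k => ?_) fun n hsq => ?_
    · split_ifs
      · exact Set.ordConnected_univ
      · exact Set.ordConnected_empty
    · change largestPrime n ∈ (if n / largestPrime n ≠ 0 ∧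
        (n / largestPrime n).primeFactors.card + 1 ∈ 𝒦 then (Set.univ : Set ℕ) else ∅) ↔
        1 < n ∧ n.primeFactors.card ∈ 𝒦
      by_cases hn : 1 < n
      · have h0 := cof n hn
        have h1 : largestPrime n ∈ n.primeFactors := Q160.GL.lp_mem hn
        obtain ⟨h2, h3, -⟩ := Nat.mem_primeFactors.1 h1
        have h4 : n.primeFactors.card = (n / largestPrime n).primeFactors.card + 1 := by
          have h5 : n = n / largestPrime n * largestPrime n := (Nat.div_mul_cancel h3).symm
          have h6 : ¬ largestPrime n ∣ n / largestPrime n := by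
            intro h
            have h7 : largestPrime n * largestPrime n ∣ n := by
              have h8 := mul_dvd_mul_right h (largestPrime n)
              rwa [← h5] at h8
            exact h2.one_lt.ne' (Nat.isUnit_iff.1 (hsq _ h7))
          have h9 : n.primeFactors = (n / largestPrime n * largestPrime n).primeFactors :=
            congrArg Nat.primeFactors h5
          rw [h9, Nat.primeFactors_mul h0 h2.ne_zero, h2.primeFactors,
            Finset.card_union_of_disjoint, Finset.card_singleton]
          rw [Finset.disjoint_singleton_right]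
          exact fun h => h6 (Nat.dvd_of_mem_primeFactors h)
        by_cases hS' : (n / largestPrime n).primeFactors.card + 1 ∈ 𝒦
        · rw [if_pos (And.intro h0 hS')]
          exact ⟨fun _ => ⟨hn, h4 ▸ hS'⟩, fun _ => Set.mem_univ _⟩
        · have hneg : ¬ (n / largestPrime n ≠ 0 ∧
              (n / largestPrime n).primeFactors.card + 1 ∈ 𝒦) := fun h => hS' h.2
          rw [if_neg hneg]
          exact ⟨fun h => absurd h (Set.notMem_empty _), fun h => absurd (h4 ▸ h.2) hS'⟩
      · have hneg : ¬ (n / largestPrime n ≠ 0 ∧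
            (n / largestPrime n).primeFactors.card + 1 ∈ 𝒦) := fun h => h.1 (small n hn)
        rw [if_neg hneg]
        exact ⟨fun h => absurd h (Set.notMem_empty _), fun h => absurd h.1 hn⟩

end Pool.Agent.Results.MP_03e5d0_nt.LargestPrimeFactor
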