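import Pool.Agent.Q190.QTw.Many
import Pool.Agent.Q190.QTw.Count
import Pool.Agent.Y19.QT.Gold

/-!
# Goldfeld's conjecture from one exponent

Let `E : y² = x³ + a x + b` be an elliptic curve over `ℚ` (with `j`-invariant `0` or `1728`, or a quadratic twist of
`X₀(11)` or `X₀(14)`, or any elliptic curve over `ℚ` whose quadratic twists are modular) and `E_d` its twist by the
squarefree integer `d`, of analytic rank `r(d)`. For a finite set `D` of squarefree integers take ONE product, over the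
`d ∈ D` and the primes `p ≤ y` which divide neither `2 (4a³ + 27b²)` nor a member of `D`:

`P_D(y) = ∏_{d ∈ D} ∏_p #E_d(𝔽_p) / p`.

Nothing is supposed on the zeros of the `L`-functions. We prove:

1. If `P_D(y^l) ≤ Q P_D(y)` for all large `y`, for ONE `l > 1`, then no `L(E_d, s)`, `d ∈ D`, has a zero with `Re s > 1`,
   and `l^R ≤ Q` for the sum `R` of the `r(d)`, `d ∈ D`. So for `Q < l^R` one has `P_D(y^l) > Q P_D(y)` for arbitrarily
   large `y`. And `P_D(y) ≍ (log y)^ρ` if and only if `ρ = R` and `P_D(y^l) = O(P_D(y))` for the `l` in a set of positive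
   outer measure in `(1, ∞)`.
2. Let `D(X)` be the set of the squarefree `d` with `|d| < X`, `S(X)` its cardinality. If `P_{D(X)}(y^l) ≤ Q P_{D(X)}(y)`
   for all large `y`, then at most `(log Q / log l - S(X)/2)/2 + O(√X)` of the `d ∈ D(X)` have `r(d) ≥ 2`, and the numbers
   of the `d` with `r(d) = 0` and with `r(d) = 1` are `S(X)/2` up to this bound.
3. For every `ε > 0`, all large `X` and every `l > 1` one has `P_{D(X)}(y^l) > l^{(1/2-ε) S(X)} P_{D(X)}(y)` for
   arbitrarily large `y`.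
4. If for every `ε > 0` and all large `X` there is one `l > 1` with `P_{D(X)}(y^l) ≤ l^{(1/2+ε) S(X)} P_{D(X)}(y)` for all
   large `y`, then the average of the analytic ranks is `1/2` and Goldfeld's conjecture holds for `E`.
5. The average of the analytic ranks is `1/2` and for all large `X` one has `P_{D(X)}(y^l) = O(P_{D(X)}(y))` for the `l` in
   a set of positive outer measure if and only if for every `ε > 0`, all large `X` and all large `l` one has
   `P_{D(X)}(y^l) ≤ l^{(1/2+ε) S(X)} P_{D(X)}(y)` for all large `y`.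

The holomorphic continuation, the growth and the parity of the orders of the `L`-functions are proved in the starting
library (`Pool.Agent.Y19.QT` and its imports) and in `Pool.Agent.Q190.QTw.Grow`.
-/

set_option autoImplicit false

namespace Pool.Agent.Results.MP_03e5d0_nt.OneExponentForTwists

open Filter Topology MeasureTheory
open Pool.Agent.Y19.QT (Fam TwistsModular IsLFun HasTwists GoldfeldLaw)

/-- the number of affine points of `y² = x³ + a x + b` over `𝔽_p` -/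
noncomputable def affine (a b : ℤ) (p : ℕ) : ℕ :=
  Nat.card {q : ZMod p × ZMod p // q.2 ^ 2 = q.1 ^ 3 + (a : ZMod p) * q.1 + (b : ZMod p)}

/-- the primes which divide neither `2 (4a³ + 27b²)` nor a member of `D` -/
def Good (a b : ℤ) (D : Finset ℤ) (p : ℕ) : Prop :=
  p.Prime ∧ ¬ (p : ℤ) ∣ 2 * (4 * a ^ 3 + 27 * b ^ 2) ∧ ∀ d ∈ D, ¬ (p : ℤ) ∣ d

open Classical in
/-- `P_D(y) = ∏_{d ∈ D} ∏_{p ≤ y good} #E_d(𝔽_p)/p`, `E_d : y² = x³ + a d² x + b d³` -/
noncomputable def product (a b : ℤ) (D : Finset ℤ) (y : ℝ) : ℝ :=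
  ∏ d ∈ D, ∏ p ∈ (Finset.range (⌊y⌋₊ + 1)).filter (Good a b D),
    ((affine (a * d ^ 2) (b * d ^ 3) p : ℝ) + 1) / p

open Classical in
/-- `D(X)`, the squarefree integers `d` with `|d| < X` -/
noncomputable def twists (X : ℝ) : Finset ℤ :=
  (Finset.Icc (-⌈X⌉) ⌈X⌉).filter fun d => Squarefree d ∧ |(d : ℝ)| < X

/-- `P(y) ≍ (log y)^ρ` -/
def OfOrder (P : ℝ → ℝ) (ρ : ℝ) : Prop :=
  ∃ a b : ℝ, 0 < a ∧ ∀ᶠ y : ℝ in atTop, a * Real.log y ^ ρ ≤ P y ∧ P y ≤ b * Real.log y ^ ρ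

/-- There is a set `Λ ⊆ (1, ∞)` of positive (outer) Lebesgue measure such that for every `l ∈ Λ` there is a `Q` with
`P(y^l) ≤ Q P(y)` for all large `y`. -/
def Regular (P : ℝ → ℝ) : Prop :=
  ∃ Λ : Set ℝ, Λ ⊆ Set.Ioi 1 ∧ volume Λ ≠ 0 ∧ ∀ l ∈ Λ, ∃ Q : ℝ, ∀ᶠ y : ℝ in atTop, P (y ^ l) ≤ Q * P y

/-- `P_{D(X)}(y^l) ≤ l^{(1/2+ε) S(X)} P_{D(X)}(y)` for all large `y` -/
def Slow (a b : ℤ) (ε X l : ℝ) : Prop := ∀ᶠ y : ℝ in atTop,
  product a b (twists X) (y ^ l) ≤ l ^ ((1 / 2 + ε) * (twists X).card) * product a b (twists X) y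

/-- the average of `r(d)` over `|d| < X` tends to `1/2` -/
def Average (r : ℤ → ℕ) : Prop :=
  Tendsto (fun X : ℝ => ((∑ d ∈ twists X, r d : ℕ) : ℝ) / (twists X).card) atTop (𝓝 (1 / 2))

/-- for `k = 0` and `k = 1` the proportion of the `d` with `r(d) = k` tends to `1/2` -/
def Goldfeld (r : ℤ → ℕ) : Prop := ∀ k < 2,
  Tendsto (fun X : ℝ => (((twists X).filter fun d => r d = k).card : ℝ) / (twists X).card) atTop (𝓝 (1 / 2))

theorem product_eq : product = Q190.QTw.product := rfl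

theorem twists_eq : twists = Q190.QTw.twists := rfl

theorem parity_of {a b : ℤ} (hG : GoldfeldLaw a b) {F : ℤ → ℂ → ℂ}
    (hF : ∀ d : ℤ, Squarefree d → IsLFun (a * d ^ 2) (b * d ^ 3) (F d)) {r : ℤ → ℕ}
    (hr : ∀ d : ℤ, Squarefree d → analyticOrderAt (F d) 1 = r d) : ∃ C : ℝ, 0 ≤ C ∧ Q190.QTw.Parity r C := by
  classical
  obtain ⟨-, h⟩ := hG
  obtain ⟨-, ⟨C, hC⟩, -⟩ := h F hF
  refine ⟨|C|, abs_nonneg _, fun X hX e he => ?_⟩
  have hX0 : 0 < X := by linarith
  rw [Q190.QTw.twists_eq hX0]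
  obtain ⟨n, hn⟩ : ∃ n, n = ⌈X⌉₊ - 1 := ⟨_, rfl⟩
  have h0 : 0 < ⌈X⌉₊ := Nat.ceil_pos.2 hX0
  have h4 : 4 ≤ ⌈X⌉₊ := by
    have h5 : (4 : ℝ) ≤ (⌈X⌉₊ : ℝ) := hX.trans (Nat.le_ceil X)
    exact_mod_cast h5
  have h3 : 3 ≤ n := by omega
  have hnX : (n : ℝ) ≤ X := by
    have h5 : n < ⌈X⌉₊ := by omega
    exact (Nat.lt_ceil.1 h5).le
  rw [← hn]
  obtain ⟨R₀, hR⟩ := hC n h3
  have h6 := (abs_le.1 (hR R₀ le_rfl e he)).1
  have h1 : (Y19.QT.NrSum F e R₀ n : ℝ) ≤ (((Y19.QT.sqf n).filter fun d => r d % 2 = e).card : ℝ) := by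
    unfold Y19.QT.NrSum
    rw [Nat.cast_sum, Y19.QT.Nr_sum]
    refine Nat.cast_le.2 (Finset.card_le_card fun d hd => ?_)
    rw [Finset.mem_filter] at hd ⊢
    obtain ⟨hd1, k, hk, hd2⟩ := hd
    refine ⟨hd1, ?_⟩
    have h7 := hr d (Y19.QT.mem_sqf.1 hd1).2
    rw [h7] at hd2
    have h8 : r d = k := by exact_mod_cast hd2
    rw [h8]
    exact (Finset.mem_filter.1 hk).2
  have h9 : C * √(n : ℝ) ≤ |C| * √X :=
    mul_le_mul (le_abs_self C) (Real.sqrt_le_sqrt hnX) (Real.sqrt_nonneg _) (abs_nonneg _)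
  linarith

/-- **Goldfeld's conjecture from one exponent.** -/
theorem result (a b : ℤ) (hE : Fam a b ∨ (4 * a ^ 3 + 27 * b ^ 2 ≠ 0 ∧ TwistsModular a b)) :
    (∀ d : ℤ, Squarefree d → ∃! F : ℂ → ℂ, IsLFun (a * d ^ 2) (b * d ^ 3) F) ∧
    ∀ F : ℤ → ℂ → ℂ, (∀ d : ℤ, Squarefree d → IsLFun (a * d ^ 2) (b * d ^ 3) (F d)) →
      ∃ r : ℤ → ℕ, (∀ d : ℤ, Squarefree d → analyticOrderAt (F d) 1 = r d) ∧
        -- (1) finite sets of twists
        (∀ D : Finset ℤ, (∀ d ∈ D, Squarefree d) →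
          (∀ l Q : ℝ, 1 < l → (∀ᶠ y : ℝ in atTop, product a b D (y ^ l) ≤ Q * product a b D y) →
            (∀ d ∈ D, ∀ s : ℂ, 1 < s.re → F d s ≠ 0) ∧ l ^ (∑ d ∈ D, r d) ≤ Q) ∧
          (∀ l Q : ℝ, 1 < l → Q < l ^ (∑ d ∈ D, r d) →
            ∃ᶠ y : ℝ in atTop, Q * product a b D y < product a b D (y ^ l)) ∧
          ∀ ρ : ℝ, OfOrder (product a b D) ρ ↔ ρ = (∑ d ∈ D, r d : ℕ) ∧ Regular (product a b D)) ∧
        -- (2) the twists with `|d| < X`
        (∃ C : ℝ, ∀ X l Q : ℝ, 4 ≤ X → 1 < l →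
          (∀ᶠ y : ℝ in atTop, product a b (twists X) (y ^ l) ≤ Q * product a b (twists X) y) →
          (((twists X).filter fun d => 2 ≤ r d).card : ℝ) ≤
            (Real.log Q / Real.log l - (twists X).card / 2) / 2 + C * √X ∧
          ∀ k < 2, |(((twists X).filter fun d => r d = k).card : ℝ) - (twists X).card / 2| ≤
            (Real.log Q / Real.log l - (twists X).card / 2) / 2 + C * √X) ∧
        -- (3) the growth from below
        (∀ ε : ℝ, 0 < ε → ∀ᶠ X : ℝ in atTop, ∀ l : ℝ, 1 < l → ∃ᶠ y : ℝ in atTop,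
          l ^ ((1 / 2 - ε) * (twists X).card) * product a b (twists X) y < product a b (twists X) (y ^ l)) ∧
        -- (4) Goldfeld's conjecture
        ((∀ ε : ℝ, 0 < ε → ∀ᶠ X : ℝ in atTop, ∃ l : ℝ, 1 < l ∧ Slow a b ε X l) → Average r ∧ Goldfeld r) ∧
        -- (5) the average of the analytic ranks
        ((Average r ∧ ∀ᶠ X : ℝ in atTop, Regular (product a b (twists X))) ↔
          ∀ ε : ℝ, 0 < ε → ∀ᶠ X : ℝ in atTop, ∀ᶠ l : ℝ in atTop, Slow a b ε X l) := by
  classical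
  have hab : 4 * a ^ 3 + 27 * b ^ 2 ≠ 0 := by
    rcases hE with h | h
    · exact h.disc
    · exact h.1
  have hT : HasTwists a b := by
    rcases hE with h | h
    · exact h.data.1
    · exact Y19.QT.hasTwists_of a b h.1 h.2
  have hG : GoldfeldLaw a b := by
    rcases hE with h | h
    · exact Y19.QT.goldfeldLaw_fam h
    · exact Y19.QT.goldfeldLaw_modular h.1 h.2
  refine ⟨hG.1, fun F hF => ?_⟩
  have hex : ∀ d : ℤ, Squarefree d → analyticOrderAt (F d) 1 ≠ ⊤ := by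
    intro d hd
    obtain ⟨m, -, h2, -⟩ := Q190.QTw.twist_laws hab hT hF {d} (fun e he => by
      rw [Finset.mem_singleton] at he
      rwa [he])
    exact h2 d (Finset.mem_singleton_self d)
  refine ⟨fun d => (analyticOrderAt (F d) 1).toNat, fun d hd => (ENat.natCast_toNat (hex d hd)).symm, ?_⟩
  set r : ℤ → ℕ := fun d => (analyticOrderAt (F d) 1).toNat with hrdef
  have hr : ∀ d : ℤ, Squarefree d → analyticOrderAt (F d) 1 = r d := fun d hd => (ENat.natCast_toNat (hex d hd)).symm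
  have h1 : ∀ D : Finset ℤ, (∀ d ∈ D, Squarefree d) →
      (∀ l Q : ℝ, 1 < l → (∀ᶠ y : ℝ in atTop, product a b D (y ^ l) ≤ Q * product a b D y) →
        (∀ d ∈ D, ∀ s : ℂ, 1 < s.re → F d s ≠ 0) ∧ l ^ (∑ d ∈ D, r d) ≤ Q) ∧
      (∀ l Q : ℝ, 1 < l → Q < l ^ (∑ d ∈ D, r d) →
        ∃ᶠ y : ℝ in atTop, Q * product a b D y < product a b D (y ^ l)) ∧
      ∀ ρ : ℝ, OfOrder (product a b D) ρ ↔ ρ = (∑ d ∈ D, r d : ℕ) ∧ Regular (product a b D) := by
    intro D hD
    obtain ⟨m, h2, -, h3, h4, h5⟩ := Q190.QTw.twist_laws hab hT hF D hD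
    have h6 := h2 r fun d hd => hr d (hD d hd)
    rw [h6] at h3 h4 h5
    exact ⟨h3, h4, h5⟩
  obtain ⟨C, hC0, hC⟩ := parity_of hG hF hr
  have hsq : ∀ X : ℝ, ∀ d ∈ twists X, Squarefree d := fun X d hd => (Q190.QTw.mem_twists.1 hd).1
  have hcard : ∀ X : ℝ, 2 ≤ X → X / 8 ≤ ((twists X).card : ℝ) := fun X hX => Q190.QTw.twists_card hX
  have hsum : ∀ X l Q : ℝ, 1 < l →
      (∀ᶠ y : ℝ in atTop, product a b (twists X) (y ^ l) ≤ Q * product a b (twists X) y) →
      ((∑ d ∈ twists X, r d : ℕ) : ℝ) ≤ Real.log Q / Real.log l := by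
    intro X l Q hl hQ
    have h2 := ((h1 _ (hsq X)).1 l Q hl hQ).2
    have h3 := Real.log_le_log (pow_pos (by linarith) _) h2
    rw [Real.log_pow] at h3
    rwa [le_div_iff₀ (Real.log_pos hl)]
  have hslow : ∀ ε X l : ℝ, 1 < l → Slow a b ε X l →
      ((∑ d ∈ twists X, r d : ℕ) : ℝ) ≤ (1 / 2 + ε) * (twists X).card := by
    intro ε X l hl h
    have h2 := hsum X l _ hl h
    rw [Real.log_rpow (by linarith)] at h2
    rwa [mul_div_assoc, div_self (Real.log_pos hl).ne', mul_one] at h2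
  have h4 : (∀ ε : ℝ, 0 < ε → ∀ᶠ X : ℝ in atTop, ∃ l : ℝ, 1 < l ∧ Slow a b ε X l) → Average r ∧ Goldfeld r := by
    intro h
    refine Q190.QTw.limits hC fun ε hε => ?_
    filter_upwards [h ε hε] with X hX
    obtain ⟨l, hl, h2⟩ := hX
    exact hslow ε X l hl h2
  refine ⟨h1, ⟨3 / 2 * C, fun X l Q hX hl hQ => ?_⟩, fun ε hε => ?_, h4, ?_⟩
  · obtain ⟨h5, h6, h7⟩ := Q190.QTw.count (twists X) r (hC X hX) (hsum X l Q hl hQ)
    have h8 : 0 ≤ C * √X := by positivity
    refine ⟨by linarith, fun k hk => (h7 k hk).trans ?_⟩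
    linarith
  · filter_upwards [eventually_ge_atTop 4, Q190.QTw.sqrt_small C (half_pos hε)] with X hX h2 l hl
    obtain ⟨-, h6, -⟩ := Q190.QTw.count (twists X) r (hC X hX) (le_refl _)
    have h3 : 0 < ((twists X).card : ℝ) := lt_of_lt_of_le (by linarith) (hcard X (by linarith))
    have h2' : C * √X ≤ ε / 2 * (twists X).card := h2
    refine (h1 _ (hsq X)).2.1 l _ hl ?_
    rw [← Real.rpow_natCast l (∑ d ∈ twists X, r d)]
    refine Real.rpow_lt_rpow_of_exponent_lt hl ?_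
    have h9 : 0 < ε * (twists X).card := by positivity
    linarith
  · constructor
    · rintro ⟨hav, hreg⟩ ε hε
      have h5 : ∀ᶠ X : ℝ in atTop, ((∑ d ∈ twists X, r d : ℕ) : ℝ) / (twists X).card < 1 / 2 + ε / 2 :=
        hav.eventually_lt_const (by linarith)
      filter_upwards [h5, hreg, eventually_ge_atTop 4] with X h6 h7 hX
      have h3 : 0 < ((twists X).card : ℝ) := lt_of_lt_of_le (by linarith) (hcard X (by linarith))
      rw [div_lt_iff₀ h3] at h6
      obtain ⟨α, β, hα, h8⟩ := ((h1 _ (hsq X)).2.2 _).2 ⟨rfl, h7⟩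
      set R : ℝ := ((∑ d ∈ twists X, r d : ℕ) : ℝ) with hR
      have h9 : 0 < (1 / 2 + ε) * (twists X).card - R := by
        have : 0 < ε * (twists X).card := by positivity
        linarith
      filter_upwards [eventually_gt_atTop 1, (tendsto_rpow_atTop h9).eventually_ge_atTop (β / α)] with l hl h10
      have hl0 : 0 < l := by linarith
      have h11 := (tendsto_rpow_atTop hl0).eventually h8
      unfold Slow
      filter_upwards [h8, h11, eventually_gt_atTop 1] with y h12 h13 hy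
      have hlog := Real.log_pos hy
      have h14 : 0 < Real.log y ^ R := Real.rpow_pos_of_pos hlog R
      have h15 : Real.log (y ^ l) ^ R = l ^ R * Real.log y ^ R := by
        rw [Real.log_rpow (by linarith), Real.mul_rpow hl0.le hlog.le]
      have h16 := h13.2
      rw [h15] at h16
      have h17 : β * l ^ R ≤ α * l ^ ((1 / 2 + ε) * (twists X).card) := by
        have e : (1 / 2 + ε) * (twists X).card = ((1 / 2 + ε) * (twists X).card - R) + R := by ring
        rw [e, Real.rpow_add hl0, ← mul_assoc]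
        refine mul_le_mul_of_nonneg_right ?_ (Real.rpow_nonneg hl0.le R)
        rw [div_le_iff₀ hα] at h10
        linarith
      have h18 : 0 ≤ l ^ ((1 / 2 + ε) * ((twists X).card : ℝ)) := Real.rpow_nonneg hl0.le _
      calc product a b (twists X) (y ^ l) ≤ β * (l ^ R * Real.log y ^ R) := h16
        _ = (β * l ^ R) * Real.log y ^ R := by ring
        _ ≤ (α * l ^ ((1 / 2 + ε) * (twists X).card)) * Real.log y ^ R := by gcongr
        _ = l ^ ((1 / 2 + ε) * (twists X).card) * (α * Real.log y ^ R) := by ring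
        _ ≤ l ^ ((1 / 2 + ε) * (twists X).card) * product a b (twists X) y :=
          mul_le_mul_of_nonneg_left h12.1 h18
    · intro h
      refine ⟨(h4 fun ε hε => ?_).1, ?_⟩
      · filter_upwards [h ε hε] with X hX
        obtain ⟨l, h5, h6⟩ := (hX.and (eventually_gt_atTop 1)).exists
        exact ⟨l, h6, h5⟩
      · filter_upwards [h 1 one_pos] with X hX
        obtain ⟨l₀, hl₀⟩ := eventually_atTop.1 hX
        refine ⟨Set.Ioi (max l₀ 1), Set.Ioi_subset_Ioi (le_max_right _ _), ?_, fun l hl => ⟨_, hl₀ l ?_⟩⟩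
        · rw [Real.volume_Ioi]
          exact ENNReal.top_ne_zero
        · exact (le_max_left _ _).trans (le_of_lt hl)

end Pool.Agent.Results.MP_03e5d0_nt.OneExponentForTwists
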