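import Pool.Agent.Q28.BP.Rs
import Pool.Agent.Q28.BP.Both

/-!
# Goldfeld's average for the truncated ranks, in all sets of twists of positive density

`E : y² = x³ + a x + b` is an elliptic curve over `ℚ`, `a, b ∈ ℤ`, and `E_d : y² = x³ + a d² x + b d³` its
twists.  By the original form of the conjecture of Birch and Swinnerton-Dyer the truncated ranks

  `rank_x(E_d) = log (∏_{p ≤ x} #E_d(𝔽_p) / p) / log log x`

tend to the rank of `E_d` for `x → ∞`.  Goldfeld's conjecture implies that the average of the ranks over the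
squarefree `d` is `1/2`, and that the average is `0` or `1` over the two halves given by the root numbers.
We prove: for every `ε, κ > 0` there is `X₀` such that in EVERY set `𝓓` of squarefree `d`, `|d| ≤ T`, which
contains at least the proportion `κ` of all of them

1. the average of `|rank_x(E_d) - 1/2|` over `d ∈ 𝓓` is at most `ε` for all `x ≥ X₀` with `x^10 ≤ T`;
2. all `d ∈ 𝓓` but a proportion `ε` satisfy `|rank_x(E_d) - 1/2| ≤ ε` simultaneously for all these `x`.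

So Goldfeld's average `1/2` is right for the truncated ranks, and until `x = T^(1/10)` it is right in every
subset of positive density, for example for the `d` with a given root number: the alternative between rank
`0` and rank `1` is not visible before that.
-/

set_option autoImplicit false

namespace Pool.Agent.Results.MP_03e5d0_nt.TruncatedGoldfeld

open Pool.Agent.W263.BSD (GoodPrime pointCount)
open Filter Topology CongruenceSubgroup UpperHalfPlane
open scoped MatrixGroups Classical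
open Finset

/-- The squarefree integers `d`, `|d| ≤ T`. -/
noncomputable def twists (T : ℕ) : Finset ℤ := (Icc (-(T : ℤ)) T).filter fun d => Squarefree d

/-- The product of `#E(𝔽_p) / p` over the primes `5 ≤ p ≤ x`, `p ∤ 2Δ`, for `E : y² = x³ + a x + b`; here
`pointCount a b p` is the number of affine points modulo `p`, so `#E(𝔽_p)` is this number plus one. -/
noncomputable def product (a b : ℤ) (x : ℕ) : ℝ :=
  ∏ p ∈ (range (x + 1)).filter (fun p => 5 ≤ p ∧ GoodPrime a b p), (((pointCount a b p : ℝ) + 1) / p)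

/-- The truncated rank of `y² = x³ + a x + b`. -/
noncomputable def rank (a b : ℤ) (x : ℕ) : ℝ := Real.log (product a b x) / Real.log (Real.log x)

/-- The `n`-th Fourier coefficient of `f`. -/
noncomputable def coef {N : ℕ} (f : CuspForm (Gamma0 N : Subgroup (GL (Fin 2) ℝ)) 2) (n : ℕ) : ℂ :=
  (qExpansion 1 f).coeff n

/-- `f ∈ S_2(Γ₀(N))` is the newform of the elliptic curve `E : y² = x³ + a x + b` of conductor `N`: the
Fourier coefficients `c(n)` of `f` are real with `c(1) = 1`, they satisfy the Hecke relations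
`c(mn) = c(m) c(n)` for coprime `m`, `n` and `c(p^(j+2)) = c(p) c(p^(j+1)) - p c(p^j)` (without the last
term if `p ∣ N`), `c(p) = a_p = p - N_p` (`N_p` affine points) for all primes `p ∤ 2Δ`, `|c(p)| ≤ 2 √p` for
all `p ∤ N` (Hasse) and `c(p) = 0, 1, -1` for `p ∣ N`. (It exists by the modularity theorem.) -/
structure IsNewformOf (a b : ℤ) (N : ℕ) (f : CuspForm (Gamma0 N : Subgroup (GL (Fin 2) ℝ)) 2) :
    Prop where
  one : coef f 1 = 1
  real : ∀ n, (coef f n).im = 0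
  mul : ∀ m n : ℕ, Nat.Coprime m n → coef f (m * n) = coef f m * coef f n
  pow : ∀ p j : ℕ, p.Prime → coef f (p ^ (j + 2)) = coef f p * coef f (p ^ (j + 1)) -
      (if p ∣ N then 0 else (p : ℂ) * coef f (p ^ j))
  points : ∀ p : ℕ, GoodPrime a b p → coef f p = (p : ℂ) - (pointCount a b p : ℂ)
  good : ∀ p : ℕ, p.Prime → ¬ p ∣ N → ‖coef f p‖ ≤ 2 * Real.sqrt p
  bad : ∀ p : ℕ, p.Prime → p ∣ N → coef f p = 0 ∨ coef f p = 1 ∨ coef f p = -1

theorem hecke {a b : ℤ} {N : ℕ} {f : CuspForm (Gamma0 N : Subgroup (GL (Fin 2) ℝ)) 2}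
    (hf : IsNewformOf a b N f) : Pool.Agent.TH941.Hecke f where
  one := hf.one
  real := hf.real
  mul := hf.mul
  pow := hf.pow
  good := hf.good
  bad := fun p hp h => by
    rcases hf.bad p hp h with h1 | h1 | h1
    · have h2 : ‖coef f p‖ ≤ 1 := by rw [h1]; simp
      exact h2
    · have h2 : ‖coef f p‖ ≤ 1 := by rw [h1]; simp
      exact h2
    · have h2 : ‖coef f p‖ ≤ 1 := by rw [h1]; simp
      exact h2

/-- the primes left out -/
noncomputable def badSet (a b : ℤ) : Finset ℕ :=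
  (2 * (-4 * a ^ 3 - 27 * b ^ 2)).natAbs.primeFactors ∪ range 5

theorem good_of_not_mem {a b : ℤ} (hΔ : 4 * a ^ 3 + 27 * b ^ 2 ≠ 0) {p : ℕ} (hp : p.Prime) :
    p ∉ badSet a b ↔ 5 ≤ p ∧ GoodPrime a b p := by
  have h0 : (2 * (-4 * a ^ 3 - 27 * b ^ 2)).natAbs ≠ 0 := by
    rw [Ne, Int.natAbs_eq_zero]
    intro h
    apply hΔ
    linarith
  unfold badSet
  rw [mem_union, mem_range, Nat.mem_primeFactors]
  unfold GoodPrime
  constructor
  · intro h
    refine ⟨by by_contra h5; exact h (Or.inr (by omega)), hp, fun hd => h (Or.inl ⟨hp, ?_, h0⟩)⟩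
    rw [← Int.natCast_dvd]
    exact hd
  · rintro ⟨h5, _, hd⟩ h
    rcases h with ⟨_, h, _⟩ | h
    · exact hd (Int.natCast_dvd.2 h)
    · omega

/-- the eigenvalues -/
noncomputable def eig (a b : ℤ) (p : ℕ) : ℝ := ((p : ℝ) - pointCount a b p) / Real.sqrt p

theorem eig_le {a b : ℤ} (hΔ : 4 * a ^ 3 + 27 * b ^ 2 ≠ 0) {p : ℕ} (hp : p.Prime) (h : p ∉ badSet a b) :
    |eig a b p| ≤ 2 := by
  obtain ⟨h5, hg⟩ := (good_of_not_mem hΔ hp).1 h
  have hp0 : (0 : ℝ) < p := by exact_mod_cast hp.pos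
  have hs : 0 < Real.sqrt p := Real.sqrt_pos.2 hp0
  unfold eig
  rw [abs_div, abs_of_pos hs, div_le_iff₀ hs]
  exact Pool.Agent.W263.BSD.hasse hg h5

theorem factor {a b : ℤ} (hΔ : 4 * a ^ 3 + 27 * b ^ 2 ≠ 0) {p : ℕ} (hp : p.Prime) (h : p ∉ badSet a b)
    (d : ℤ) : 1 - eig a b p * ((jacobiSym d p : ℝ) / Real.sqrt p) + ((jacobiSym d p : ℝ) / Real.sqrt p) ^ 2 =
      if GoodPrime (a * d ^ 2) (b * d ^ 3) p then ((pointCount (a * d ^ 2) (b * d ^ 3) p : ℝ) + 1) / p
      else 1 := by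
  obtain ⟨h5, hg⟩ := (good_of_not_mem hΔ hp).1 h
  have : Fact p.Prime := ⟨hp⟩
  have hp2 : p ≠ 2 := by omega
  have hp0 : (0 : ℝ) < p := by exact_mod_cast hp.pos
  have hs : 0 < Real.sqrt p := Real.sqrt_pos.2 hp0
  have hss : Real.sqrt p * Real.sqrt p = p := Real.mul_self_sqrt hp0.le
  rw [Pool.Agent.Q28.BP.jac_ch]
  by_cases hd : (d : ZMod p) = 0
  · rw [if_neg, hd, Pool.Agent.Q28.BP.ch_zero]
    · simp
    · rw [Pool.Agent.Q28.BP.good_twist hp, not_and, not_not]
      intro _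
      exact (ZMod.intCast_zmod_eq_zero_iff_dvd d p).1 hd
  · rw [if_pos]
    · have h1 := Pool.Agent.Q28.BP.ch_sq hd
      unfold eig
      rw [Pool.Agent.Q28.BP.count_eq hp2, Pool.Agent.Q28.BP.count_eq hp2]
      push_cast
      rw [Pool.Agent.Q28.BP.cs_twist hd, div_pow, Real.sq_sqrt hp0.le, h1, div_mul_div_comm, hss]
      field_simp
      ring
    · rw [Pool.Agent.Q28.BP.good_twist hp]
      exact ⟨hg, fun h => hd ((ZMod.intCast_zmod_eq_zero_iff_dvd d p).2 h)⟩

theorem log_product {a b : ℤ} (hΔ : 4 * a ^ 3 + 27 * b ^ 2 ≠ 0) {M : ℕ → Matrix (Fin 2) (Fin 2) ℂ}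
    (hM : ∀ p, |eig a b p| ≤ 2 → Pool.Agent.Q28.BP.EigLe (M p) ∧
    (∀ z : ℂ, (1 - z • M p).det = 1 - eig a b p * z + z ^ 2) ∧ (M p ^ 2).trace.re = eig a b p ^ 2 - 2)
    (d : ℤ) (x : ℕ) : Real.log (product (a * d ^ 2) (b * d ^ 3) x) =
      ∑ p ∈ (range (x + 1)).filter Nat.Prime, Pool.Agent.Q28.BP.lq (badSet a b) M d p := by
  have hM' : ∀ p : ℕ, p.Prime → p ∉ badSet a b → Pool.Agent.Q28.BP.EigLe (M p) := fun p hp hpS =>
    (hM p (eig_le hΔ hp hpS)).1
  have hS : ∀ p < 4, p ∈ badSet a b := fun p hp => mem_union_right _ (mem_range.2 (by omega))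
  have hpos : ∀ p : ℕ, p.Prime → GoodPrime (a * d ^ 2) (b * d ^ 3) p → (0 : ℝ) <
      ((pointCount (a * d ^ 2) (b * d ^ 3) p : ℝ) + 1) / p := fun p hp _ => by
    have hp0 : (0 : ℝ) < p := by exact_mod_cast hp.pos
    positivity
  rw [← Pool.Agent.Q28.BP.log_prod_lq hM' hS d x]
  congr 1
  have e1 : ∏ p ∈ (range (x + 1)).filter (fun p => p.Prime ∧ p ∉ badSet a b),
      ‖(1 - (((jacobiSym d p : ℝ) / Real.sqrt p : ℝ) : ℂ) • M p).det‖ =
      ∏ p ∈ (range (x + 1)).filter (fun p => p.Prime ∧ p ∉ badSet a b),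
        if GoodPrime (a * d ^ 2) (b * d ^ 3) p then ((pointCount (a * d ^ 2) (b * d ^ 3) p : ℝ) + 1) / p
        else 1 := by
    refine prod_congr rfl fun p hp => ?_
    obtain ⟨_, h1, h2⟩ := mem_filter.1 hp
    rw [(hM p (eig_le hΔ h1 h2)).2.1]
    have e : (1 : ℂ) - eig a b p * (((jacobiSym d p : ℝ) / Real.sqrt p : ℝ) : ℂ) +
        (((jacobiSym d p : ℝ) / Real.sqrt p : ℝ) : ℂ) ^ 2 =
        ((1 - eig a b p * ((jacobiSym d p : ℝ) / Real.sqrt p) +
          ((jacobiSym d p : ℝ) / Real.sqrt p) ^ 2 : ℝ) : ℂ) := by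
      push_cast
      ring
    rw [e, factor hΔ h1 h2, Complex.norm_real, Real.norm_eq_abs]
    split_ifs with h3
    · exact abs_of_pos (hpos p h1 h3)
    · exact abs_one
  rw [e1, ← prod_filter, filter_filter]
  unfold product
  refine prod_congr ?_ fun _ _ => rfl
  refine filter_congr fun p _ => ?_
  constructor
  · rintro ⟨h1, h2⟩
    exact ⟨⟨h2.1, (good_of_not_mem hΔ h2.1).2 ⟨h1, ((Pool.Agent.Q28.BP.good_twist h2.1).1 h2).1⟩⟩, h2⟩
  · rintro ⟨⟨h1, h2⟩, h3⟩
    exact ⟨((good_of_not_mem hΔ h1).1 h2).1, h3⟩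

/-- **Goldfeld's average for truncated ranks.**  Let `E : y² = x³ + a x + b` be an elliptic curve with
newform `f`, `ε, κ > 0`.  There is `X₀` such that for every `T` and every set `𝓓` of squarefree `d`,
`|d| ≤ T`, with at least `κ` times the number of all of them:
1. the average over `d ∈ 𝓓` of `|rank_x(E_d) - 1/2|` is at most `ε` for `x ≥ X₀`, `x^10 ≤ T`;
2. all `d ∈ 𝓓` but at most the proportion `ε` satisfy `|rank_x(E_d) - 1/2| ≤ ε` for all these `x`. -/
theorem result (a b : ℤ) (hΔ : 4 * a ^ 3 + 27 * b ^ 2 ≠ 0) (N : ℕ) [NeZero N]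
    (f : CuspForm (Gamma0 N : Subgroup (GL (Fin 2) ℝ)) 2) (hf : IsNewformOf a b N f)
    (ε κ : ℝ) (hε : 0 < ε) (hκ : 0 < κ) :
    ∃ X₀ : ℕ, ∀ (T : ℕ), ∀ 𝓓 ⊆ twists T, κ * (twists T).card ≤ 𝓓.card →
      (∀ x : ℕ, X₀ ≤ x → x ^ 10 ≤ T →
        (∑ d ∈ 𝓓, |rank (a * d ^ 2) (b * d ^ 3) x - 1 / 2|) / 𝓓.card ≤ ε) ∧
      ∃ 𝓔 ⊆ 𝓓, (𝓔.card : ℝ) ≤ ε * 𝓓.card ∧ ∀ d ∈ 𝓓, d ∉ 𝓔 → ∀ x : ℕ, X₀ ≤ x → x ^ 10 ≤ T →
        |rank (a * d ^ 2) (b * d ^ 3) x - 1 / 2| ≤ ε := by
  have hrs : Tendsto (Pool.Agent.W263.BSD.rsSum a b) atTop (𝓝 0) :=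
    (hecke hf).rsSum_tendsto hΔ fun p hp => hf.points p hp
  obtain ⟨M, hM⟩ := Pool.Agent.Q28.BP.exists_twos (eig a b)
  have hM' : ∀ p : ℕ, p.Prime → p ∉ badSet a b → Pool.Agent.Q28.BP.EigLe (M p) := fun p hp hpS =>
    (hM p (eig_le hΔ hp hpS)).1
  have hS : ∀ p < 4, p ∈ badSet a b := fun p hp => mem_union_right _ (mem_range.2 (by omega))
  set S := badSet a b with hSdef
  obtain ⟨C₀, hC₀, hC₀'⟩ := Pool.Agent.Q28.BP.sum_inv_loglog
  have hsm := Pool.Agent.Q28.BP.RR_small hrs (show 0 < ε / 8 by positivity)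
  -- the centre
  set A : ℝ := C₀ + ∑ p ∈ S, (1 / (p : ℝ) + |Pool.Agent.Q28.BP.rho a b p|) with hA
  have hcen : ∀ x : ℕ, 3 ≤ x → |1 / 2 * ∑ p ∈ (range (x + 1)).filter Nat.Prime,
      Pool.Agent.Q28.BP.ta S M p / p + 1 / 2 * Real.log (Real.log x)| ≤
        |Pool.Agent.Q28.BP.RR a b x| + A := by
    intro x hx3
    have e1 : ∑ p ∈ (range (x + 1)).filter Nat.Prime, Pool.Agent.Q28.BP.ta S M p / p =
        ∑ p ∈ (range (x + 1)).filter (fun p => p.Prime ∧ p ∉ S), (Pool.Agent.Q28.BP.rho a b p - 1 / p) := by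
      rw [sum_filter, sum_filter]
      refine sum_congr rfl fun p _ => ?_
      unfold Pool.Agent.Q28.BP.ta
      by_cases hp : p.Prime
      · by_cases hpS : p ∈ S
        · rw [if_pos hp, if_pos hpS, if_neg fun h => h.2 hpS]
          ring
        · rw [if_pos hp, if_neg hpS, if_pos ⟨hp, hpS⟩, (hM p (eig_le hΔ hp hpS)).2.2]
          unfold Pool.Agent.Q28.BP.rho
          rw [if_pos ((good_of_not_mem hΔ hp).1 hpS).2]
          have hp0 : (0 : ℝ) < p := by exact_mod_cast hp.pos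
          unfold eig
          rw [div_pow, Real.sq_sqrt hp0.le]
          field_simp
          ring
      · rw [if_neg hp, if_neg fun h => hp h.1]
    have e2 : ∑ p ∈ (range (x + 1)).filter Nat.Prime, 1 / (p : ℝ) =
        ∑ p ∈ (range (x + 1)).filter (fun p => p.Prime ∧ p ∉ S), 1 / (p : ℝ) +
        ∑ p ∈ (range (x + 1)).filter (fun p => p.Prime ∧ p ∈ S), 1 / (p : ℝ) := by
      rw [sum_filter, sum_filter, sum_filter, ← sum_add_distrib]
      refine sum_congr rfl fun p _ => ?_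
      by_cases hp : p.Prime <;> by_cases hpS : p ∈ S <;> simp [hp, hpS]
    have e3 : Pool.Agent.Q28.BP.RR a b x =
        ∑ p ∈ (range (x + 1)).filter (fun p => p.Prime ∧ p ∉ S), Pool.Agent.Q28.BP.rho a b p +
        ∑ p ∈ (range (x + 1)).filter (fun p => p.Prime ∧ p ∈ S), Pool.Agent.Q28.BP.rho a b p := by
      unfold Pool.Agent.Q28.BP.RR
      rw [sum_filter, sum_filter, ← sum_add_distrib]
      refine sum_congr rfl fun p _ => ?_
      by_cases hp : p.Prime
      · by_cases hpS : p ∈ S <;> simp [hp, hpS]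
      · have : Pool.Agent.Q28.BP.rho a b p = 0 := by
          unfold Pool.Agent.Q28.BP.rho
          rw [if_neg fun h => hp h.1]
        simp [hp, this]
    have h5 := hC₀' x hx3
    have h6 : ∑ p ∈ (range (x + 1)).filter (fun p => p.Prime ∧ p ∈ S), 1 / (p : ℝ) +
        |∑ p ∈ (range (x + 1)).filter (fun p => p.Prime ∧ p ∈ S), Pool.Agent.Q28.BP.rho a b p| ≤
        ∑ p ∈ S, (1 / (p : ℝ) + |Pool.Agent.Q28.BP.rho a b p|) := by
      have h7 := abs_sum_le_sum_abs (Pool.Agent.Q28.BP.rho a b)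
        ((range (x + 1)).filter (fun p => p.Prime ∧ p ∈ S))
      have h8 : ∑ p ∈ (range (x + 1)).filter (fun p => p.Prime ∧ p ∈ S),
          (1 / (p : ℝ) + |Pool.Agent.Q28.BP.rho a b p|) ≤
          ∑ p ∈ S, (1 / (p : ℝ) + |Pool.Agent.Q28.BP.rho a b p|) :=
        sum_le_sum_of_subset_of_nonneg (fun p hp => (mem_filter.1 hp).2.2) fun _ _ _ => by positivity
      rw [sum_add_distrib] at h8
      linarith
    have h7 : 0 ≤ ∑ p ∈ (range (x + 1)).filter (fun p => p.Prime ∧ p ∈ S), 1 / (p : ℝ) :=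
      sum_nonneg fun _ _ => by positivity
    rw [sum_sub_distrib] at e1
    rw [e1]
    rw [e2] at h5
    have h8 := neg_abs_le (Pool.Agent.Q28.BP.RR a b x)
    have h9 := le_abs_self (Pool.Agent.Q28.BP.RR a b x)
    have k8 := neg_abs_le (∑ p ∈ (range (x + 1)).filter (fun p => p.Prime ∧ p ∈ S),
      Pool.Agent.Q28.BP.rho a b p)
    have k9 := le_abs_self (∑ p ∈ (range (x + 1)).filter (fun p => p.Prime ∧ p ∈ S),
      Pool.Agent.Q28.BP.rho a b p)
    rw [abs_le] at h5 ⊢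
    rw [hA]
    constructor <;> linarith [h5.1, h5.2]
  obtain ⟨K, hK, HK⟩ := Pool.Agent.Q28.BP.sqf_mean 2
  obtain ⟨X₂, hX₂, H₂⟩ := Pool.Agent.Q28.BP.sqf_all 2 (show 0 < ε * κ by positivity)
  have hL : Tendsto (fun x : ℕ => Real.log (Real.log (x : ℝ)) ^ (1 / 6 : ℝ)) atTop atTop :=
    (tendsto_rpow_atTop (by norm_num)).comp Pool.Agent.Q28.BP.tendsto_loglog
  have hL2 : Tendsto (fun x : ℕ => Real.log (Real.log (x : ℝ)) ^ (1 / 2 : ℝ)) atTop atTop :=
    (tendsto_rpow_atTop (by norm_num)).comp Pool.Agent.Q28.BP.tendsto_loglog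
  obtain ⟨X₁, hX₁⟩ := eventually_atTop.1 (((hL.eventually_ge_atTop (1 / (ε / 8))).and
    (hL2.eventually_ge_atTop (1 / (ε * κ / (4 * (K + 1)))))).and
    ((Pool.Agent.Q28.BP.tendsto_loglog.eventually_ge_atTop (A / (ε / 8))).and hsm))
  refine ⟨max X₂ X₁, fun T 𝓓 h𝓓 hcard => ?_⟩
  -- the value
  have hval : ∀ d ∈ 𝓓, ∀ x : ℕ, max X₂ X₁ ≤ x → |rank (a * d ^ 2) (b * d ^ 3) x - 1 / 2| ≤
      |∑ p ∈ (range (x + 1)).filter Nat.Prime, Pool.Agent.Q28.BP.lq S M d p +
        1 / 2 * ∑ p ∈ (range (x + 1)).filter Nat.Prime, Pool.Agent.Q28.BP.ta S M p / p| /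
          Real.log (Real.log x) + ε / 4 := by
    intro d _ x hx
    have hx16 : 16 ≤ x := hX₂.trans ((le_max_left _ _).trans hx)
    have hl1 := Pool.Agent.Q28.BP.loglog_ge_one hx16
    have hl0 : 0 < Real.log (Real.log x) := by linarith
    obtain ⟨⟨_, _⟩, k2, k3⟩ := hX₁ x ((le_max_right _ _).trans hx)
    rw [div_le_iff₀ (by positivity)] at k2
    have h1 := hcen x (by omega)
    have e : rank (a * d ^ 2) (b * d ^ 3) x - 1 / 2 =
        ((∑ p ∈ (range (x + 1)).filter Nat.Prime, Pool.Agent.Q28.BP.lq S M d p +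
        1 / 2 * ∑ p ∈ (range (x + 1)).filter Nat.Prime, Pool.Agent.Q28.BP.ta S M p / p) -
        (1 / 2 * ∑ p ∈ (range (x + 1)).filter Nat.Prime, Pool.Agent.Q28.BP.ta S M p / p +
          1 / 2 * Real.log (Real.log x))) / Real.log (Real.log x) := by
      unfold rank
      rw [log_product hΔ hM d x]
      field_simp
      ring
    rw [e, abs_div, abs_of_pos hl0]
    have h2 : |Pool.Agent.Q28.BP.RR a b x| + A ≤ ε / 4 * Real.log (Real.log x) := by linarith
    rw [div_add' _ _ _ hl0.ne']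
    refine div_le_div_of_nonneg_right ?_ hl0.le
    refine (abs_sub _ _).trans ?_
    linarith
  refine ⟨fun x hx hxT => ?_, ?_⟩
  · have hx16 : 16 ≤ x := hX₂.trans ((le_max_left _ _).trans hx)
    have hl1 := Pool.Agent.Q28.BP.loglog_ge_one hx16
    have hl0 : 0 < Real.log (Real.log x) := by linarith
    obtain ⟨⟨_, k1⟩, _⟩ := hX₁ x ((le_max_right _ _).trans hx)
    have h1 := HK S M hM' hS T x hx16 hxT
    have hT0 : (0 : ℝ) < (twists T).card := by
      have h4 := Pool.Agent.Q28.BP.sqf_card T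
      have h5 : 1 ≤ T := (Nat.one_le_pow 10 x (by omega)).trans hxT
      have h6 : (1 : ℝ) ≤ T := by exact_mod_cast h5
      have h7 : (0 : ℝ) < (Pool.Agent.Q28.BP.sqf T).card := by linarith
      exact h7
    have hD0 : (0 : ℝ) < 𝓓.card := lt_of_lt_of_le (mul_pos hκ hT0) hcard
    have h2 : ∑ d ∈ 𝓓, |∑ p ∈ (range (x + 1)).filter Nat.Prime, Pool.Agent.Q28.BP.lq S M d p +
        1 / 2 * ∑ p ∈ (range (x + 1)).filter Nat.Prime, Pool.Agent.Q28.BP.ta S M p / p| ≤
        K * (twists T).card * Real.log (Real.log x) ^ (1 / 2 : ℝ) :=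
      (sum_le_sum_of_subset_of_nonneg h𝓓 fun _ _ _ => abs_nonneg _).trans h1
    have h3 : ∑ d ∈ 𝓓, |rank (a * d ^ 2) (b * d ^ 3) x - 1 / 2| ≤
        K * (twists T).card * Real.log (Real.log x) ^ (1 / 2 : ℝ) / Real.log (Real.log x) +
          𝓓.card * (ε / 4) := by
      refine (sum_le_sum fun d hd => hval d hd x hx).trans ?_
      rw [sum_add_distrib, sum_const, nsmul_eq_mul, ← sum_div]
      exact add_le_add (div_le_div_of_nonneg_right h2 hl0.le) le_rfl
    have hcK : 0 < ε * κ / (4 * (K + 1)) := by positivity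
    have h4 := Pool.Agent.Q28.BP.small_pow hcK hl1 (by norm_num : (1 / 2 : ℝ) + 1 / 2 = 1) k1
    have h5 : K * (twists T).card * Real.log (Real.log x) ^ (1 / 2 : ℝ) / Real.log (Real.log x) ≤
        𝓓.card * (ε / 4) := by
      rw [div_le_iff₀ hl0]
      have h6 : K * (twists T).card * Real.log (Real.log x) ^ (1 / 2 : ℝ) ≤
          K * (twists T).card * (ε * κ / (4 * (K + 1)) * Real.log (Real.log x)) :=
        mul_le_mul_of_nonneg_left h4 (by positivity)
      refine h6.trans ?_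
      have h7 : K * (ε * κ / (4 * (K + 1))) ≤ ε * κ / 4 := by
        rw [mul_div_assoc', div_le_div_iff₀ (by positivity) (by norm_num)]
        nlinarith [mul_pos hε hκ]
      calc K * (twists T).card * (ε * κ / (4 * (K + 1)) * Real.log (Real.log x)) =
          K * (ε * κ / (4 * (K + 1))) * ((twists T).card * Real.log (Real.log x)) := by ring
        _ ≤ ε * κ / 4 * ((twists T).card * Real.log (Real.log x)) :=
          mul_le_mul_of_nonneg_right h7 (by positivity)
        _ = κ * (twists T).card * (ε / 4 * Real.log (Real.log x)) := by ring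
        _ ≤ 𝓓.card * (ε / 4 * Real.log (Real.log x)) :=
          mul_le_mul_of_nonneg_right hcard (by positivity)
        _ = _ := by ring
    rw [div_le_iff₀ hD0]
    have h6 : 0 ≤ (𝓓.card : ℝ) * ε := by positivity
    linarith
  · obtain ⟨E, hE, hEc, HE⟩ := H₂ S M hM' hS T
    refine ⟨E ∩ 𝓓, inter_subset_right, ?_, fun d hd hdE x hx hxT => ?_⟩
    · have h1 : ((E ∩ 𝓓).card : ℝ) ≤ E.card := by exact_mod_cast card_le_card inter_subset_left
      refine h1.trans (hEc.trans ?_)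
      calc ε * κ * ((Pool.Agent.Q28.BP.sqf T).card : ℝ) = ε * (κ * (twists T).card) := by
            rw [mul_assoc]
            rfl
        _ ≤ ε * 𝓓.card := mul_le_mul_of_nonneg_left hcard hε.le
    · have h1 := HE d (h𝓓 hd) (fun h => hdE (mem_inter.2 ⟨h, hd⟩)) x ((le_max_left _ _).trans hx) hxT
      have hx16 : 16 ≤ x := hX₂.trans ((le_max_left _ _).trans hx)
      have hl1 := Pool.Agent.Q28.BP.loglog_ge_one hx16
      have hl0 : 0 < Real.log (Real.log x) := by linarith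
      obtain ⟨⟨k1, _⟩, _⟩ := hX₁ x ((le_max_right _ _).trans hx)
      have h3 := Pool.Agent.Q28.BP.small_pow (show (0 : ℝ) < ε / 8 by positivity) hl1
        (by norm_num : (1 / 6 : ℝ) + 5 / 6 = 1) k1
      refine (hval d hd x hx).trans ?_
      have h4 : |∑ p ∈ (range (x + 1)).filter Nat.Prime, Pool.Agent.Q28.BP.lq S M d p +
        1 / 2 * ∑ p ∈ (range (x + 1)).filter Nat.Prime, Pool.Agent.Q28.BP.ta S M p / p| /
          Real.log (Real.log x) ≤ ε / 4 := by
        rw [div_le_iff₀ hl0]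
        refine h1.trans ?_
        linarith
      linarith

end Pool.Agent.Results.MP_03e5d0_nt.TruncatedGoldfeld
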