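import Pool.Agent.Q7.JF.Two
import Pool.Agent.Q6.XK.Ana
import Pool.Agent.Y687.MQ.Disc

/-!
# Goldfeld's conjecture for two curves at once: `X_0(14)` and `X_0(49)` twisted by the same `D`

`E^D : y² = x³ + 5805 D² x - 285714 D³` and `A^D : y² = x³ - 35 D² x - 98 D³` are the quadratic twists of the
elliptic curves `E = X_0(14)` (no complex multiplication) and `A = X_0(49)` (complex multiplication by
`ℚ(√-7)`), which are not isogenous. Goldfeld's conjecture predicts the analytic ranks of almost all of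
the twists of each curve; for the pairs `(E^D, A^D)` it predicts that both ranks are `0` for almost all `D`
for which both signs are `+1`. Nothing of this kind was known for two curves.

The class consists of the squarefree `D ≥ 1` whose prime factors are `≡ 1 mod 8` and split in `ℚ(√-7)`, or
`≡ 5 mod 8` and inert, and the family of the numbers of the class which are `≡ 1 mod 8`. With `m` and `D` they
contain the squarefree part `star m D` of `m D`, and `E^(star m D)` is the twist by `D` of the curve `E^m`.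
Let `G`, `K` be disjoint finite sets of elements of the family and `G'`, `K'` disjoint finite sets of
elements of the class, and let `D` run through the family. For exactly the proportion
`c ^ (#G + #G') (1 - c) ^ (#K + #K')`, `c = ∏_{i ≥ 0} (1 - 2^{-(2i+1)}) = 0.4194...`, of the `D` all the twists by
`D` of the curves `E^m`, `m ∈ G`, and `A^m`, `m ∈ G'`, have analytic rank `0`, finitely many rational points and
`Ш[2] = 0`, while the last two properties fail for the twists by `D` of all the curves `E^m`, `m ∈ K`, and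
`A^m`, `m ∈ K'`. The number of these `D ≤ X` is at least a constant times `X (log X)^(-3/4)`. In particular
`E^D` and `A^D` have both analytic rank `0` for at least the proportion `c² = 0.1759...` of the family, and the
events for `E` and `A` are asymptotically independent.

The matrices of quadratic symbols for the two curves differ by the diagonal (quadratic characters of
`(1 + √-7)/2` and of `√-7`). The joint law for several diagonals is in `Pool.Agent.Q7.JF`; the diagonals are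
separated by Chebotarev's theorem.
-/

set_option autoImplicit false

open Finset Filter

namespace Pool.Agent.Results.MP_03e5d0_nt.TwoCurves

/-- the curve `y² = x³ + a x + b` over `ℚ` -/
def curve (a b : ℤ) : WeierstrassCurve ℚ :=
  { a₁ := 0, a₂ := 0, a₃ := 0, a₄ := (a : ℚ), a₆ := (b : ℚ) }

/-- `a_p = p + 1 - #E(𝔽_p)`, that is `p` minus the number of affine points modulo `p` -/
noncomputable def ap (a b : ℤ) (p : ℕ) : ℤ := (p : ℤ) - Nat.card {z : ZMod p × ZMod p //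
  z.2 ^ 2 = z.1 ^ 3 + (a : ZMod p) * z.1 + (b : ZMod p)}

open Classical in
/-- `F` is entire and is, for `Re s > 3/2`, the `L`-function of `y² = x³ + a x + b` without the Euler factors
at the primes dividing `2 (4 a³ + 27 b²)` -/
def IsL (a b : ℤ) (F : ℂ → ℂ) : Prop :=
  Differentiable ℂ F ∧ ∀ s : ℂ, (3 : ℝ) / 2 < s.re →
    HasProd (fun p : ℕ => if p.Prime ∧ ¬ (p : ℤ) ∣ 2 * (4 * a ^ 3 + 27 * b ^ 2) then
      (1 - (ap a b p : ℂ) * (p : ℂ) ^ (-s) + (p : ℂ) ^ (1 - 2 * s))⁻¹ else 1) (F s)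

/-- the analytic rank of `y² = x³ + a x + b` is `0` -/
def AnRankZero (a b : ℤ) : Prop := (∃ F : ℂ → ℂ, IsL a b F) ∧ ∀ F : ℂ → ℂ, IsL a b F → F 1 ≠ 0

/-- the group of the rational points is finite and `Ш` has no element of order two -/
def RankZeroShaTwo (a b : ℤ) : Prop :=
  Finite (curve a b).toAffine.Point ∧ ∀ x : Pool.Agent.TH841.SH.D.Sha (curve a b), 2 • x = 0 → x = 0

/-- `E^D`, the twist of `X_0(14)`, has rank zero and `Ш[2] = 0` -/
def Rk14 (D : ℕ) : Prop := RankZeroShaTwo (5805 * (D : ℤ) ^ 2) (-285714 * (D : ℤ) ^ 3)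

/-- `E^D`, the twist of `X_0(14)`, has analytic rank zero -/
def An14 (D : ℕ) : Prop := AnRankZero (5805 * (D : ℤ) ^ 2) (-285714 * (D : ℤ) ^ 3)

/-- `A^D`, the twist of `X_0(49)`, has rank zero and `Ш[2] = 0` -/
def Rk49 (D : ℕ) : Prop := RankZeroShaTwo (-35 * (D : ℤ) ^ 2) (-98 * (D : ℤ) ^ 3)

/-- `A^D`, the twist of `X_0(49)`, has analytic rank zero -/
def An49 (D : ℕ) : Prop := AnRankZero (-35 * (D : ℤ) ^ 2) (-98 * (D : ℤ) ^ 3)

/-- the class: `D` is squarefree, its prime factors are `1` modulo `8` and split in `ℚ(√-7)`, or `5`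
modulo `8` and inert in `ℚ(√-7)` -/
def Class (D : ℕ) : Prop := Squarefree D ∧ ∀ p : ℕ, p.Prime → p ∣ D →
  (p % 8 = 1 ∧ (p % 7 = 1 ∨ p % 7 = 2 ∨ p % 7 = 4)) ∨
  (p % 8 = 5 ∧ (p % 7 = 3 ∨ p % 7 = 5 ∨ p % 7 = 6))

/-- the family: the numbers of the class which are `1` modulo `8` -/
def Family (D : ℕ) : Prop := Class D ∧ D % 8 = 1

/-- the squarefree part of the product of two squarefree numbers -/
def star (m D : ℕ) : ℕ := m * D / (Nat.gcd m D) ^ 2

open Classical in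
/-- the number of the `D ≤ X` in the family with the property `Q` -/
noncomputable def count (Q : ℕ → Prop) (X : ℕ) : ℕ := ((Icc 1 X).filter fun D => Family D ∧ Q D).card

/-! ### translation -/

theorem isL_unique {a b : ℤ} {F G : ℂ → ℂ} (hF : IsL a b F) (hG : IsL a b G) : F = G :=
  Y687.unique_f hF.1 hG.1 hF.2 hG.2

theorem rk14_iff (D : ℕ) : Rk14 D ↔ Y17.X.RZ (D : ℤ) := by
  unfold Rk14 RankZeroShaTwo Y17.X.RZ
  refine and_congr Iff.rfl (forall_congr' fun x => ?_)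
  rw [two_nsmul]
  rfl

theorem rk49_iff (D : ℕ) : Rk49 D ↔ Q6.XK.Triv (D : ℤ) := by
  unfold Rk49 RankZeroShaTwo Q6.XK.Triv
  refine and_congr Iff.rfl (forall_congr' fun x => ?_)
  rw [two_nsmul]
  rfl

theorem fam_iff (D : ℕ) : Family D ↔ Q6.XK.Fam D := (Q7.JF.fam_cls D).symm

theorem an14 {D : ℕ} (hD : Family D) (h : Rk14 D) : An14 D := by
  classical
  have hA := Q7.JF.adm_of ((fam_iff D).1 hD)
  have hdet := (Y17.X.rz_iff hA).1 ((rk14_iff D).1 h)
  obtain ⟨⟨f, hf, hfp, hf1⟩, -⟩ := Y687.MQ.WB_D hA hdet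
  have hF : IsL (5805 * (D : ℤ) ^ 2) (-285714 * (D : ℤ) ^ 3) f := by
    refine ⟨hf, fun s hs => ?_⟩
    have h1 := hfp s hs
    have h2 := (hasProd_subtype_iff_mulIndicator (s := {l : ℕ | l.Prime ∧
      ¬ ((l : ℤ) ∣ 2 * (4 * (5805 * (D : ℤ) ^ 2) ^ 3 + 27 * (-285714 * (D : ℤ) ^ 3) ^ 2))})
      (f := fun l : ℕ => Y687.fac (5805 * (D : ℤ) ^ 2) (-285714 * (D : ℤ) ^ 3) s l)).1 h1
    refine (congrArg (fun g => HasProd g (f s)) (funext fun p => ?_)).mp h2
    by_cases hp : p.Prime ∧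
        ¬ (p : ℤ) ∣ 2 * (4 * (5805 * (D : ℤ) ^ 2) ^ 3 + 27 * (-285714 * (D : ℤ) ^ 3) ^ 2)
    · rw [Set.mulIndicator_of_mem (show p ∈ {l : ℕ | l.Prime ∧ ¬ ((l : ℤ) ∣
        2 * (4 * (5805 * (D : ℤ) ^ 2) ^ 3 + 27 * (-285714 * (D : ℤ) ^ 3) ^ 2))} from hp), if_pos hp]
      rfl
    · rw [Set.mulIndicator_of_notMem (show p ∉ {l : ℕ | l.Prime ∧ ¬ ((l : ℤ) ∣
        2 * (4 * (5805 * (D : ℤ) ^ 2) ^ 3 + 27 * (-285714 * (D : ℤ) ^ 3) ^ 2))} from hp), if_neg hp]
  exact ⟨⟨f, hF⟩, fun G hG => by rw [isL_unique hG hF]; exact hf1⟩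

theorem an49 {D : ℕ} (hD : Class D) (h : Rk49 D) : An49 D := by
  classical
  have hB : Q6.XK.Base D := ⟨hD.1, fun p hp hd => by rcases hD.2 p hp hd with h | h <;> omega⟩
  have hdet : (Pool.Agent.Y698.SG.mat (Q6.XK.QQ D) (Q6.XK.PP D)).det ≠ 0 :=
    (Q6.XK.crit hB).2 ((Q6.XK.triv_crit hB).1 ((rk49_iff _).1 h))
  obtain ⟨F, h1, h2, h3⟩ := Q6.XK.ana (Q6.XK.hQQ hB) (Q6.XK.hPP hB) hdet (D := (D : ℤ))
    (by rw [Q6.XK.prod_QP hB])
  have hF : IsL (-35 * (D : ℤ) ^ 2) (-98 * (D : ℤ) ^ 3) F := by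
    refine ⟨h1, fun s hs => ?_⟩
    refine (congrArg (fun g => HasProd g (F s)) (funext fun p => ?_)).mp (h2 s hs)
    refine if_congr ?_ ?_ rfl
    · have e : (2 * (-4 * (-35 * (D : ℤ) ^ 2) ^ 3 - 27 * (-98 * (D : ℤ) ^ 3) ^ 2) : ℤ) =
          -(2 * (4 * (-35 * (D : ℤ) ^ 2) ^ 3 + 27 * (-98 * (D : ℤ) ^ 3) ^ 2)) := by ring
      rw [e, dvd_neg]
    · unfold ap
      push_cast
      rfl
  exact ⟨⟨F, hF⟩, fun G hG => by rw [isL_unique hG hF]; exact h3⟩

open Classical in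
theorem count_congr {Q R : ℕ → Prop} (h : ∀ D, Family D → (Q D ↔ R D)) (X : ℕ) :
    count Q X = Q7.JF.cnt R X := by
  unfold count Q7.JF.cnt
  refine congrArg Finset.card (Finset.ext fun D => ?_)
  refine (Finset.mem_filter).trans (Iff.trans ?_ (Finset.mem_filter).symm)
  rw [← fam_iff]
  exact and_congr_right fun _ => and_congr_right fun hD => h D hD

/-- **Analytic rank zero for the twists of two curves by the same `D`: asymptotic independence.** -/
theorem result :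
    (∀ m D : ℕ, Class m → Class D → Class (star m D) ∧ (m % 8 = 1 → D % 8 = 1 → star m D % 8 = 1) ∧
      m * D = star m D * (Nat.gcd m D) ^ 2) ∧
    ∃ c : ℝ, 0.4194 < c ∧ c < 0.4195 ∧
      Tendsto (fun n : ℕ => ∏ i ∈ range n, (1 - (1 / 2 : ℝ) ^ (2 * i + 1))) atTop (nhds c) ∧
      ∀ G G' K K' : Finset ℕ, (∀ m ∈ G, Family m) → (∀ m ∈ G', Class m) → (∀ m ∈ K, Family m) →
        (∀ m ∈ K', Class m) → Disjoint G K → Disjoint G' K' →
        Tendsto (fun X : ℕ => (count (fun D =>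
            ((∀ m ∈ G, An14 (star m D) ∧ Rk14 (star m D)) ∧
              ∀ m ∈ G', An49 (star m D) ∧ Rk49 (star m D)) ∧
            (∀ m ∈ K, ¬ Rk14 (star m D)) ∧ ∀ m ∈ K', ¬ Rk49 (star m D)) X : ℝ) /
          (count (fun _ => True) X : ℝ)) atTop
          (nhds (c ^ (G.card + G'.card) * (1 - c) ^ (K.card + K'.card))) ∧
        ∃ (a : ℝ) (X₀ : ℕ), 0 < a ∧ ∀ X : ℕ, X₀ ≤ X → a * (X * (Real.log X) ^ (-(3 / 4) : ℝ)) ≤
          (count (fun D => ((∀ m ∈ G, An14 (star m D) ∧ Rk14 (star m D)) ∧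
              ∀ m ∈ G', An49 (star m D) ∧ Rk49 (star m D)) ∧
            (∀ m ∈ K, ¬ Rk14 (star m D)) ∧ ∀ m ∈ K', ¬ Rk49 (star m D)) X : ℝ) := by
  obtain ⟨-, hc1, hc2, hT⟩ := Q160.JX.const
  refine ⟨fun m D hm hD => ⟨(Q7.JF.st_cls hm hD).1, (Q7.JF.st_cls hm hD).2.2, Q7.JF.st_sq hm⟩,
    Y703.CQ.c2, hc1, hc2, hT, ?_⟩
  intro G G' K K' hG hG' hK hK' hd hd'
  have h := Q7.JF.law4 Rk14 Rk49 (fun D _ _ => rk14_iff D) (fun D _ _ => rk49_iff D) G G' K K'
    (fun m hm => (fam_iff m).1 (hG m hm)) hG' (fun m hm => (fam_iff m).1 (hK m hm)) hK' hd hd'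
  have e0 : ∀ X, count (fun _ => True) X = Q7.JF.cnt (fun _ => True) X :=
    fun X => count_congr (fun _ _ => Iff.rfl) X
  have e : ∀ X, count (fun D => ((∀ m ∈ G, An14 (star m D) ∧ Rk14 (star m D)) ∧
              ∀ m ∈ G', An49 (star m D) ∧ Rk49 (star m D)) ∧
            (∀ m ∈ K, ¬ Rk14 (star m D)) ∧ ∀ m ∈ K', ¬ Rk49 (star m D)) X =
      Q7.JF.cnt (fun D => ((∀ m ∈ G, Rk14 (Q7.JF.st m D)) ∧ ∀ m ∈ G', Rk49 (Q7.JF.st m D)) ∧
        (∀ m ∈ K, ¬ Rk14 (Q7.JF.st m D)) ∧ ∀ m ∈ K', ¬ Rk49 (Q7.JF.st m D)) X := by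
    intro X
    refine count_congr (fun D hD => ?_) X
    refine and_congr_left fun _ => and_congr ?_ ?_
    · refine forall_congr' fun m => forall_congr' fun hm => ?_
      have h1 := Q7.JF.st_cls (hG m hm).1 hD.1
      exact ⟨fun h => h.2, fun h => ⟨an14 ⟨h1.1, h1.2.2 (hG m hm).2 hD.2⟩ h, h⟩⟩
    · refine forall_congr' fun m => forall_congr' fun hm => ?_
      exact ⟨fun h => h.2, fun h => ⟨an49 (Q7.JF.st_cls (hG' m hm) hD.1).1 h, h⟩⟩
  simp only [e, e0]
  exact h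

end Pool.Agent.Results.MP_03e5d0_nt.TwoCurves
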